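import Pool.Agent.Lib.MP_ab8df0_nt.B.Auto2
import Pool.Agent.Lib.MP_ab8df0_nt.P.N1D

/-! Constants, proof tree and the result of the computation. -/

set_option maxRecDepth 100000

namespace Pool.Agent.Lib.MP_ab8df0_nt.T.B61a

open Pool.Agent.Lib.MP_ab8df0_nt.B Pool.Agent.Lib.MP_ab8df0_nt.P

def dl0 : List ℤ × ℕ := ([24, -72, 24, 12, 36, -48, 66, 0, -36, 36, -15, 27, -3, -15, 12], 4)

def dl1 : List ℤ × ℕ := ([120, -24, -120, -12, 60, -96, 48, 60, -60, 30, -12, -6, 24, -9, -6], 8)

def vs : Cs := [([0, 1], 1), ([], 1), ([], 1), ([], 1), 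
  ([2, 0, 0, 0, 0, 1], 2),
  ([2], 1),
  ([16, 0, -56, 0, 40, 8, 0, -16, 0, 20, 4, 0, -2, 0, 4], 1),
  ([64, 64, 0, 0, 0, 32, 32, 0, 0, 0, 4, 4], 1),
  ([0, 0, 0, 0, 32, 0, 0, 0, 0, 12, 0, 0, 0, 0, 2], 1),
  ([-16, 0, 0, 0, 32, 0, 0, 0, 0, 12, 0, 0, 0, 0, 2], 1),
  ([3096576, 2064384, -884736, -5308416, -1105920, 1327104, 884736, -294912, -2211840, -479232, 221184, 147456, -36864, -331776, -73728], 1),
  ([-4, 0, 12, 0, 0, 0, 0, 6, 0, 0, 0, 0, 1], 1),
  ([0, 0, 0, 1920, 0, 0, 0, 0, 768, 0, 0, 0, 0, 96], 1),
  ([16, 0, 0, 40, 0, 0, 0, 0, 16, 0, 0, 0, 0, 2], 1),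
  ([-12288, 0, 9216, 55296, 21504, -6144, 0, 9216, 27648, 6144, -3072, 0, 2304, 4608, 768], 1),
  ([31, 0, 0, 0, 0, 13, 0, 0, 0, 0, 2], 1),
  ([-18432, 129024, 119808, -82944, -216576, -9216, 55296, 55296, -32256, -89856, 0, 9216, 9216, -4608, -13824], 1)]

def M (t0 : ℤ) (k0 : ℕ) : List Hyp := [
  .disc 1 t0 k0,
  .eq 2 (.add (.mul (.num 2) (.inv (.add (.num 1) (.mul (.var 1) (.var 4))))) (.neg (.num 1))),
  .pw 3 2 (.add (.num 1) (.mul (.num 3) (.sq (.var 2)))),
  .cls (.add (.var 3) (.neg (.num 1))) [5, 6, 7, 8, 9, 10, 11, 12, 13, 14, 15, 16],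
  .out (.add (.var 3) (.neg (.num 1))) [5, 6, 7, 8, 9, 10, 11, 12, 13, 14, 15, 16] [false, false, false, false, false, false, false, true, false, true, true, false],
  .out (.add (.var 3) (.neg (.num 1))) [5, 6, 7, 8, 9, 10, 11, 12, 13, 14, 15, 16] [false, false, false, false, false, false, true, false, false, false, false, false]]

def k0 : Cut := ⟨[0], [], [[true, false, false, false, false, false, false, false, false, false, false, false, false]], [[false, false, true, false, false, false, false, false, false, false, false, false, false], [false, false, true, false, false, false, false, false, false, false, true, false, false], [false, false, true, false, false, false, false, false, true, false, false, false, false], [false, true, false, false, false, false, false, false, false, false, false, false, false], [false, false, false, true, false, false, false, false, false, false, false, false, false], [true, false, true, true, false, false, false, false, true, true, true, false, false], [false, false, false, false, false, true, false, false,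 false, false, false, false, false], [false, true, false, false, false, false, false, true, false, false, false, false, false], [false, false, false, false, true, false, false, false, false, false, false, false, false], [true, false, false, false, true, false, false, true, false, false, false, false, true], [false, false, false, false, false, false, true, false, false, false, false, false, false], [false, false, true, false, false, false, false, false, true, false, true, true, false]], [[true, false, false, false, false, false, false, false, false, false, false, false, false], [false, false, false, false, true, false, false, false, false, false, false, false, false], [false, true, false, false, false, false, false, false, false, false, false, false, false], [false, false, false, false, false, true, false, false, false, false, false, false, false], [false, false, false, false, false, false, false, false, false, true, false, false, false], [false, false, false, false, false, false, false, true, false, false, false, false, false], [false, false,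 false, false, false, false, false, false, false, false, false, true, false], [false, false, false, false, true, false, false, false, true, false, false, false, false], [false, true, false, true, false, false, false, false, false, false, false, false, false], [true, true, true, true, false, true, true, false, false, false, false, false, false], [false, true, true, false, false, false, false, false, false, false, false, false, false], [false, true, true, true, false, false, false, false, false, false, false, false, true], [true, false, false, false, true, false, false, false, true, true, true, false, false]]⟩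

def A : List AH := [
  ]

theorem auto : (baseOk 3 vs && A.all (AH.ok FDN1 3 vs)) = true := by decide +kernel

def r0_0 : Tree := .set 4 [[ce (-1) 136 1 1 0x1]] (.set 5 [[]] (.set 6 [[]] (.set 7 [[]] (.set 8 [[]] (.set 9 [[]] (.set 10 [[]] (.set 11 [[]] (.set 12 [[]] (.set 13 [[]] (.set 14 [[]] (.set 15 [[]] (.set 16 [[]] (.piv [5, 6, 7, 8, 9, 10, 11, 12, 13, 14, 15, 16] [[ce 0 136 1 0 0x0], [ce (-2) 136 1 1 0x1], [ce (-2) 136 1 1 0x1], [ce (-3) 136 1 15 0x4000], [ce (-2) 136 5 15 0x7e1f8727c9f3f0fc3f], [ce (-7) 136 5 15 0x74178e9f278bedd472b], [ce (-1) 136 5 15 0x50d366ab0a2e0c2e29b], [ce (-5) 136 5 14 0x200001a00000f0000], [ce (-2) 136 5 15 0x68ff995a918d8b43403], [ce (-6) 136 5 15 0x77a3a9ccce98cce2858], [ce 0 136 5 11 0x5c000024000009], [ce (-6) 136 5 15 0x178c139d6a3890b12d0]] (.disc 17 (.split 17 (.split 17 (.set 18 [[ce 0 136 1 1 0x1]] (.oroot 19 [[]] [(ce 0 136 3 12 0x400140020, ce (-2) 136 1 1 0x1)] (.conc 20 23 21 [[]] [ce (-10) 136 5 15 0x31b08dabcd70229409a]))) (.set 18 [[ce 0 136 5 6 0x3c000015]] (.oroot 19 [[]] [(ce 0 136 4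 12 0x400009000040, ce (-2) 136 5 11 0x2000000c000015)] (.dead 20 23 [[]] [false, false, false, false, false, false, false, true, false, true, true, false] [ce (-10) 136 5 15 0x503e183f2242240020a])))) (.split 17 (.set 18 [[ce 0 136 5 11 0x1400003200000d]] (.oroot 19 [[]] [(ce 0 136 5 12 0x680000540000280, ce (-2) 136 5 11 0xc00003a000013)] (.dead 20 23 [[]] [false, false, false, false, false, false, true, false, false, false, false, false] [ce (-1) 136 5 15 0x1d3d9e30296f4215805]))) (.set 18 [[ce 0 136 5 11 0x1400001e00001d]] (.oroot 19 [[]] [(ce 0 136 5 12 0x380000740000280, ce (-2) 136 5 11 0x2c000036000017)] (.conc 20 23 22 [[]] [ce (-1) 136 5 15 0x499fdf04a92f9875905])))))))))))))))))))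

theorem r0 : run FDN1.ds FDN1.es [[ce 0 136 64 1 0xf0f0f0f0f0f0f0f1]] vs.length (fullH 3 vs (M 0 0) A) r0_0 = true := by
  decide +kernel

theorem relT {K : Type} [Field K] [NumberField K] {a : K} {pl : List (Place K)} {ph : List (K →+* ℝ)}
    {w : List (IsDedekindDomain.HeightOneSpectrum (NumberField.RingOfIntegers K))}
    (hP : Pack K FDN1 a pl ph w) : (2 * cval a vs 4) = ((a * ((((a) ^ 2)) ^ 2)) + 2) := by
  have h : ((((2 : ℤ) : K) * cval a vs 4) + (-(((cval a vs 0 * ((((cval a vs 0) ^ 2)) ^ 2)) + ((2 : ℤ) : K))))) = 0 :=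
    hP.rel vs (.add (.mul (.num 2) (.var 4)) (.neg (.add (.mul (.var 0) (.sq (.sq (.var 0)))) (.num 2)))) (by decide +kernel)
  have h0 : cval a vs 0 = a := by simp [cval, vs, ev]
  try rw [h0] at h
  try push_cast at h
  linear_combination h

theorem relC {K : Type} [Field K] [NumberField K] {a : K} {pl : List (Place K)} {ph : List (K →+* ℝ)}
    {w : List (IsDedekindDomain.HeightOneSpectrum (NumberField.RingOfIntegers K))}
    (hP : Pack K FDN1 a pl ph w) : (cval a vs 4 * ((cval a vs 4) ^ 2)) = 2 := by
  have h : ((cval a vs 4 * ((cval a vs 4) ^ 2)) + (-(((2 : ℤ) : K)))) = 0 :=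
    hP.rel vs (.add (.mul (.var 4) (.sq (.var 4))) (.neg (.num 2))) (by decide +kernel)
  have h0 : cval a vs 0 = a := by simp [cval, vs, ev]
  try rw [h0] at h
  try push_cast at h
  linear_combination h

theorem core {K : Type} [Field K] [NumberField K] {a : K} {pl : List (Place K)} {ph : List (K →+* ℝ)}
    {w : List (IsDedekindDomain.HeightOneSpectrum (NumberField.RingOfIntegers K))}
    (hP : Pack K FDN1 a pl ph w) {G : Prop} (t g X : K)
    (hdisc : Q2 0 (t - ((0 : ℤ) : K)))
    (hG : g = ((2 * ((1 + (t * cval a vs 4)))⁻¹) - 1))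
    (hX : X ^ 5 = (1 + (3 * ((g) ^ 2))))
    (hcls : ∀ v : IsDedekindDomain.HeightOneSpectrum (NumberField.RingOfIntegers K), ((30 : ℕ) : NumberField.RingOfIntegers K) ∉ v.asIdeal →
      ∃ k : ℤ, v.valuation K (X - 1) = WithZero.exp (2 * k))
    (hclsre : ∀ i ∈ [0], ∀ φ, ph[i]? = some φ → 0 < φ (X - 1))
    (hout0 : IsSquare ((X - 1) * (ev a dl0.1 / (dl0.2 : K))) → G)
    (hout1 : IsSquare ((X - 1) * (ev a dl1.1 / (dl1.2 : K))) → G) :
    G := by
  refine hP.cover (fr := [t, g, X]) (M := M) (cs := [[ce 0 136 64 1 0xf0f0f0f0f0f0f0f1]]) rfl auto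
    (l := [(0, 0)]) (by decide) ?_ hdisc fun tq kq hq => ?_
  · exact List.forall_mem_cons.2 ⟨⟨_, r0⟩, fun _ h => absurd h List.not_mem_nil⟩
  · refine List.forall_mem_cons.2 ⟨?_, List.forall_mem_cons.2 ⟨?_, List.forall_mem_cons.2 ⟨?_, List.forall_mem_cons.2 ⟨?_, List.forall_mem_cons.2 ⟨?_, List.forall_mem_cons.2 ⟨?_, fun _ h => absurd h List.not_mem_nil⟩⟩⟩⟩⟩⟩
    · exact hq
    · show g = ((((2 : ℤ) : K) * ((((1 : ℤ) : K) + (t * cval a vs 4)))⁻¹) + (-(((1 : ℤ) : K))))
      try push_cast
      linear_combination hG
    · show X ^ 5 = (((1 : ℤ) : K) + (((3 : ℤ) : K) * ((g) ^ 2)))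
      try push_cast
      linear_combination hX
    · exact fun h0 => hP.span_cut (nf := 3) (vs := vs) (x := (X + (-(((1 : ℤ) : K))))) (fr := [t, g, X]) rfl k0 (by decide +kernel) h0 ((by push_cast; ring : (X + (-(((1 : ℤ) : K)))) = (X - 1)) ▸ hcls) ((by push_cast; ring : (X + (-(((1 : ℤ) : K)))) = (X - 1)) ▸ hclsre) (fun _ h => absurd h List.not_mem_nil)
    · exact fun h0 => hout0 ((by push_cast; ring : (X + (-(((1 : ℤ) : K)))) = (X - 1)) ▸ hP.out (nf := 3) (vs := vs) (x := (X + (-(((1 : ℤ) : K))))) (fr := [t, g, X]) rfl dl0 ([-32, 12, 16, -20, 4, 54, -20, -22, 30, -4, 9, 3, -7, 4, 2], 61440) (by decide +kernel) h0)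
    · exact fun h0 => hout1 ((by push_cast; ring : (X + (-(((1 : ℤ) : K)))) = (X - 1)) ▸ hP.out (nf := 3) (vs := vs) (x := (X + (-(((1 : ℤ) : K))))) (fr := [t, g, X]) rfl dl1 ([32, -32, -4, 28, 32, -44, 20, -8, -16, 34, -16, 4, 5, -5, 5], 48) (by decide +kernel) h0)

end Pool.Agent.Lib.MP_ab8df0_nt.T.B61a
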